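import Mathlib
import Pool.Agent.Helper394.Spec

open Finset Filter Topology

namespace Pool.Agent.Results.MP_ec2323_pr.TypicalNoCutoff

noncomputable section

section defs

variable {V : Type} [Fintype V] [DecidableEq V]

/-- Jump matrix of simple random walk on `G`: from `x` to a uniformly chosen neighbour. -/
def srw (G : SimpleGraph V) [DecidableRel G.Adj] : Matrix V V ℝ :=
  fun x y => if G.Adj x y then 1 / (G.degree x : ℝ) else 0

/-- Law at time `t` of continuous-time simple random walk with jump rate one: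
`P_x(X_t = y) = exp(t (srw - 1)) x y`. -/
def heat (G : SimpleGraph V) [DecidableRel G.Adj] (t : ℝ) : Matrix V V ℝ :=
  NormedSpace.exp (t • (srw G - 1))

/-- Stationary distribution `π(x) = deg(x) / (2 |E(G)|)`. -/
def stat (G : SimpleGraph V) [DecidableRel G.Adj] (x : V) : ℝ :=
  (G.degree x : ℝ) / (2 * (G.edgeFinset.card : ℝ))

/-- `d_x(t) = ‖P_x(X_t ∈ ·) - π‖_TV`. -/
def d (G : SimpleGraph V) [DecidableRel G.Adj] (x : V) (t : ℝ) : ℝ :=
  (1 / 2 : ℝ) * ∑ y, |heat G t x y - stat G y|

/-- `τ_x = inf {t ≥ 0 : d_x(t) ≤ 1/4}`. -/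
def tauX (G : SimpleGraph V) [DecidableRel G.Adj] (x : V) : ℝ :=
  sInf {t : ℝ | 0 ≤ t ∧ d G x t ≤ 1 / 4}

open Classical in
/-- The `π`-measure of the set of vertices satisfying `p`. -/
def meas (G : SimpleGraph V) [DecidableRel G.Adj] (p : V → Prop) : ℝ :=
  ∑ x, if p x then stat G x else 0

/-- `m` is a median of `τ_x` when `x` is drawn from `π`. -/
def IsMedianTau (G : SimpleGraph V) [DecidableRel G.Adj] (m : ℝ) : Prop :=
  1 / 2 ≤ meas G (fun x => tauX G x ≤ m) ∧ 1 / 2 ≤ meas G (fun x => m ≤ tauX G x)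

/-- Spectral gap of the generator `srw - 1`: the smallest nonzero eigenvalue of `1 - srw`. -/
def gap (G : SimpleGraph V) [DecidableRel G.Adj] : ℝ :=
  sInf {r : ℝ | r ∈ spectrum ℝ (1 - srw G) ∧ r ≠ 0}

/-- Relaxation time `τ₂ = 1 / gap`. -/
def tau2 (G : SimpleGraph V) [DecidableRel G.Adj] : ℝ := 1 / gap G

end defs

/-- Total variation cutoff from a stationary (typical) start, at times `τ n`. -/
def TypicalCutoff (V : ℕ → Type) [∀ n, Fintype (V n)] [∀ n, DecidableEq (V n)]
    (G : ∀ n, SimpleGraph (V n)) [∀ n, DecidableRel (G n).Adj] (τ : ℕ → ℝ) : Prop :=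
  ∀ ε : ℝ, 0 < ε → ε < 1 →
    Tendsto (fun n => meas (G n) (fun x => 1 - ε < d (G n) x ((1 - ε) * τ n))) atTop (𝓝 1) ∧
    Tendsto (fun n => meas (G n) (fun x => d (G n) x ((1 + ε) * τ n) < ε)) atTop (𝓝 1)

section

variable {G : Type} [AddCommGroup G] [Fintype G] [DecidableEq G]

theorem srw_mulVec (S : Finset G) (h0 : (0 : G) ∉ S) (hn : ∀ s ∈ S, -s ∈ S) (f : G → ℝ) :
    (srw (Helper394.cay S h0 hn)).mulVec f = Helper394.U S f := by
  rw [← Helper394.Pn_mulVec]
  congr 1
  ext x y
  simp only [srw, Helper394.Pn, Helper394.cay_degree, Helper394.cay_adj]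

theorem stat_eq (S : Finset G) (h0 : (0 : G) ∉ S) (hn : ∀ s ∈ S, -s ∈ S) (hS : S.Nonempty)
    (x : G) : stat (Helper394.cay S h0 hn) x = 1 / (Fintype.card G : ℝ) := by
  have h1 := SimpleGraph.sum_degrees_eq_twice_card_edges (Helper394.cay S h0 hn)
  simp only [Helper394.cay_degree, Finset.sum_const, Finset.card_univ, smul_eq_mul] at h1
  have h2 : (Fintype.card G : ℝ) * S.card =
      2 * ((Helper394.cay S h0 hn).edgeFinset.card : ℝ) := by exact_mod_cast h1
  have hc : (0 : ℝ) < S.card := by exact_mod_cast hS.card_pos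
  have hG : (0 : ℝ) < Fintype.card G := by exact_mod_cast Fintype.card_pos
  rw [stat, Helper394.cay_degree, ← h2]
  field_simp

end

/-- There are finite connected simple graphs with `|V(G_n)| → ∞` and `τ(n)/τ₂(n) → ∞` for
which the continuous-time simple random walks have no total variation cutoff from a
stationary start. -/
theorem result :
    ∃ (V : ℕ → Type) (_ : ∀ n, Fintype (V n)) (_ : ∀ n, DecidableEq (V n))
      (G : ∀ n, SimpleGraph (V n)) (_ : ∀ n, DecidableRel (G n).Adj) (τ : ℕ → ℝ),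
      Tendsto (fun n => Fintype.card (V n)) atTop atTop ∧
      (∀ n, (G n).Connected) ∧
      (∀ n, IsMedianTau (G n) (τ n)) ∧
      Tendsto (fun n => τ n / tau2 (G n)) atTop atTop ∧
      ¬ TypicalCutoff V G τ := by
  choose N hN S hTN hS using fun n : ℕ => Helper394.exists_bad (8 * (n + 8)) (by omega)
  let G : ∀ n, SimpleGraph (ZMod (N n)) := fun n => Helper394.cay (S n) (hS n).zero (hS n).neg
  have hP : ∀ n, ∀ f : ZMod (N n) → ℝ, (srw (G n)).mulVec f = Helper394.U (S n) f :=
    fun n f => srw_mulVec (S n) _ _ f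
  have hst : ∀ n x, stat (G n) x = 1 / (Fintype.card (ZMod (N n)) : ℝ) :=
    fun n x => stat_eq (S n) _ _ (hS n).nonempty x
  have hcard : ∀ n, (0 : ℝ) < Fintype.card (ZMod (N n)) := fun n => by
    exact_mod_cast Fintype.card_pos
  have hd : ∀ n x t, d (G n) x t = (1 / 2 : ℝ) * ∑ y,
      |(NormedSpace.exp (t • (srw (G n) - 1))) x y - 1 / (Fintype.card (ZMod (N n)) : ℝ)| := by
    intro n x t
    simp only [d, heat, hst]
  have hlow : ∀ n x t, 0 ≤ t → t ≤ 4 * ((n + 8 : ℕ) : ℝ) → 1 / 2 < d (G n) x t := by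
    intro n x t ht0 ht
    rw [hd]
    exact Helper394.heat_lower (m := n + 8) (by omega) (hS n) (hP n) t ht0 ht x
  have hup : ∀ n x t, 2 * ((n + 8 : ℕ) : ℝ) ≤ t → d (G n) x t ≤ 1 - 1 / 2000 := by
    intro n x t ht
    rw [hd]
    exact Helper394.heat_tv_upper (m := n + 8) (by omega) (hS n) (hP n) t ht x
  have hconv : ∀ n x, ∃ t, 0 ≤ t ∧ d (G n) x t ≤ 1 / 4 := by
    intro n x
    have hG := hcard n
    obtain ⟨t, ht0, ht⟩ := Helper394.heat_conv (m := n + 8) (by omega) (hS n) (hP n)
      ((1 / 4) / Fintype.card (ZMod (N n))) (by positivity)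
    refine ⟨t, ht0, ?_⟩
    rw [hd]
    calc (1 / 2 : ℝ) * ∑ y, |(NormedSpace.exp (t • (srw (G n) - 1))) x y -
          1 / (Fintype.card (ZMod (N n)) : ℝ)|
        ≤ (1 / 2 : ℝ) * ∑ _y : ZMod (N n), (1 / 4) / (Fintype.card (ZMod (N n)) : ℝ) := by
          gcongr with y
          exact ht x y
      _ = 1 / 8 := by
          simp only [Finset.sum_const, Finset.card_univ, nsmul_eq_mul]
          field_simp
          norm_num
      _ ≤ 1 / 4 := by norm_num
  have hdx : ∀ n x t, d (G n) x t = d (G n) 0 t := by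
    intro n x t
    rw [hd, hd, Helper394.heat_tv_translate (hP n)]
  have htx : ∀ n x, tauX (G n) x = tauX (G n) 0 := by
    intro n x
    simp only [tauX, hdx n x]
  have htau : ∀ n, 4 * ((n + 8 : ℕ) : ℝ) ≤ tauX (G n) 0 := by
    intro n
    apply le_csInf
    · exact hconv n 0
    · rintro t ⟨ht0, ht⟩
      by_contra hcon
      push Not at hcon
      have := hlow n 0 t ht0 hcon.le
      linarith
  have htot : ∀ n, ∑ x, stat (G n) x = 1 := by
    intro n
    have hG := hcard n
    simp only [hst, Finset.sum_const, Finset.card_univ, nsmul_eq_mul]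
    field_simp
  have hmeas1 : ∀ n (p : ZMod (N n) → Prop), (∀ x, p x) → meas (G n) p = 1 := by
    intro n p hp
    rw [← htot n]
    refine Finset.sum_congr rfl fun x _ => ?_
    rw [if_pos (hp x)]
  have hmeas0 : ∀ n (p : ZMod (N n) → Prop), (∀ x, ¬ p x) → meas (G n) p = 0 := by
    intro n p hp
    apply Finset.sum_eq_zero
    intro x _
    rw [if_neg (hp x)]
  refine ⟨fun n => ZMod (N n), fun n => inferInstance, fun n => inferInstance, G,
    fun n => inferInstance, fun n => tauX (G n) 0, ?_, ?_, ?_, ?_, ?_⟩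
  · refine tendsto_atTop_mono (fun n => ?_) tendsto_id
    rw [ZMod.card]
    have := hTN n
    simp only [id]
    omega
  · exact fun n => Helper394.cay_connected (hS n)
  · intro n
    refine ⟨?_, ?_⟩
    · rw [hmeas1 n _ (fun x => (htx n x).le)]; norm_num
    · rw [hmeas1 n _ (fun x => (htx n x).ge)]; norm_num
  · have hgap : ∀ n, 1 / 4 ≤ gap (G n) := by
      intro n
      have h4 : 1 < N n := by have := hTN n; omega
      have hf : Fact (1 < N n) := ⟨h4⟩
      apply le_csInf
      · obtain ⟨r, hr, hr0⟩ := Helper394.gap_real_exists (hS n) (hP n)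
          (ZMod.stdAddChar.mulShift 1) (ZMod.isPrimitive_stdAddChar (N n) one_ne_zero)
        exact ⟨r, hr, hr0⟩
      · rintro r ⟨hr, hr0⟩
        exact Helper394.gap_real (hS n) (hP n) r hr hr0
    refine tendsto_atTop_mono (fun n => ?_) tendsto_natCast_atTop_atTop
    have h1 := hgap n
    have h2 := htau n
    rw [tau2, div_div_eq_mul_div, div_one]
    push_cast at h2
    have h3 : (0 : ℝ) ≤ n := by positivity
    nlinarith
  · intro hcut
    have h1 := (hcut (1 / 2000) (by norm_num) (by norm_num)).1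
    have h2 : ∀ n, meas (G n) (fun x => 1 - 1 / 2000 <
        d (G n) x ((1 - 1 / 2000) * tauX (G n) 0)) = 0 := by
      intro n
      apply hmeas0
      intro x
      push Not
      apply hup
      have h3 := htau n
      push_cast at h3 ⊢
      have h4 : (0 : ℝ) ≤ n := by positivity
      nlinarith
    have h3 : Tendsto (fun n => meas (G n) (fun x => 1 - 1 / 2000 <
        d (G n) x ((1 - 1 / 2000) * tauX (G n) 0))) atTop (𝓝 0) := by
      simp only [h2]
      exact tendsto_const_nhds
    have h4 := tendsto_nhds_unique h1 h3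
    norm_num at h4

end

end Pool.Agent.Results.MP_ec2323_pr.TypicalNoCutoff
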